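import Mathlib

set_option autoImplicit false

namespace Pool.Agent.H.MP_c9c98b_al

open Subgroup
open scoped commutatorElement IsMulCommutative

section Filt

theorem filt {G S : Type} [Group G] [Ring S] (I : ℕ → AddSubgroup S)
    (anti : ∀ n m, ∀ s ∈ I (n + m), s ∈ I n)
    (mul : ∀ n m, ∀ s ∈ I n, ∀ t ∈ I m, s * t ∈ I (n + m))
    (ρ : G →* Sˣ) (h1 : ∀ g, (ρ g : S) - 1 ∈ I 1) (n : ℕ) :
    ∀ g ∈ (⊤ : Subgroup G).lowerCentralSeries n, (ρ g : S) - 1 ∈ I (n + 1) := by
  have hr : ∀ n, ∀ s ∈ I n, ∀ g, s * (ρ g : S) ∈ I n := fun n s hs g => by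
    have : s * (ρ g : S) = s * ((ρ g : S) - 1) + s := by noncomm_ring
    rw [this]
    exact (I n).add_mem (anti _ _ _ (mul _ _ _ hs _ (h1 g))) hs
  let K : ℕ → Subgroup G := fun n =>
    { carrier := {g | (ρ g : S) - 1 ∈ I n}
      one_mem' := by simp
      mul_mem' := fun {a b} ha hb => by
        have : (ρ (a * b) : S) - 1 = ((ρ a : S) - 1) * ρ b + ((ρ b : S) - 1) := by
          rw [map_mul, Units.val_mul]; noncomm_ring
        show (ρ (a * b) : S) - 1 ∈ I n
        rw [this]
        exact (I n).add_mem (hr _ _ ha b) hb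
      inv_mem' := fun {a} ha => by
        have e : (ρ a : S) * ρ a⁻¹ = 1 := by
          rw [← Units.val_mul, ← map_mul, mul_inv_cancel, map_one, Units.val_one]
        have : (ρ a⁻¹ : S) - 1 = -(((ρ a : S) - 1) * ρ a⁻¹) := by
          rw [sub_mul, e]; noncomm_ring
        show (ρ a⁻¹ : S) - 1 ∈ I n
        rw [this]
        exact (I n).neg_mem (hr _ _ ha _) }
  have key : (⊤ : Subgroup G).lowerCentralSeries n ≤ K (n + 1) := by
    induction n with
    | zero => exact fun g _ => h1 g
    | succ n ih =>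
      rw [Subgroup.lowerCentralSeries_succ, Subgroup.commutator_le]
      intro a ha b _
      have ha' : (ρ a : S) - 1 ∈ I (n + 1) := ih ha
      have e : (ρ (b * a) : S) * ρ (a⁻¹ * b⁻¹) = 1 := by
        rw [← Units.val_mul, ← map_mul, show b * a * (a⁻¹ * b⁻¹) = 1 by group, map_one,
          Units.val_one]
      have : (ρ ⁅a, b⁆ : S) - 1 = (((ρ a : S) - 1) * ((ρ b : S) - 1)
          - ((ρ b : S) - 1) * ((ρ a : S) - 1)) * ρ (a⁻¹ * b⁻¹) := by
        rw [← e, commutatorElement_def, show a * b * a⁻¹ * b⁻¹ = a * b * (a⁻¹ * b⁻¹) by group]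
        simp only [map_mul (ρ) (a * b), map_mul ρ a b, map_mul ρ b a, Units.val_mul]
        have e' : (ρ b : S) * ρ a * ρ (a⁻¹ * b⁻¹) = 1 := by
          rw [← e, map_mul ρ b a, Units.val_mul]
        rw [e']
        have : ∀ A B C : S, B * A * C = 1 →
            A * B * C - 1 = ((A - 1) * (B - 1) - (B - 1) * (A - 1)) * C := by
          intro A B C h
          rw [← h]
          nth_rewrite 2 [h]
          nth_rewrite 2 [h]
          nth_rewrite 2 [h]
          nth_rewrite 2 [h]
          noncomm_ring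
        exact this _ _ _ e'
      show (ρ ⁅a, b⁆ : S) - 1 ∈ I (n + 1 + 1)
      rw [this]
      refine hr _ _ ((I _).sub_mem (mul _ _ _ ha' _ (h1 b)) ?_) _
      rw [add_comm (n + 1) 1]
      exact mul _ _ _ (h1 b) _ ha'
  exact fun g hg => key hg

theorem quot_nil (G : Type) [Group G] (n : ℕ) :
    Group.IsNilpotent (G ⧸ (⊤ : Subgroup G).lowerCentralSeries n) := by
  rw [Subgroup.nilpotent_iff_lowerCentralSeries]
  refine ⟨n, ?_⟩
  have h := map_lowerCentralSeries (⊤ : Subgroup G)
    (QuotientGroup.mk' ((⊤ : Subgroup G).lowerCentralSeries n)) n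
  rw [Subgroup.map_top_of_surjective _ (QuotientGroup.mk'_surjective _)] at h
  rw [← h, Subgroup.map_eq_bot_iff, QuotientGroup.ker_mk']

end Filt

abbrev F : Type := FreeGroup ℕ
def x (k : ℕ) : F := FreeGroup.of k
def R0 : Set F := {w | ∃ k, w = x k ^ 2 ^ (k + 1)}
abbrev G : Type := PresentedGroup R0

theorem of_pow (k : ℕ) : (PresentedGroup.of k : G) ^ 2 ^ (k + 1) = 1 := by
  have : PresentedGroup.mk R0 (x k ^ 2 ^ (k + 1)) = 1 := PresentedGroup.one_of_mem ⟨k, rfl⟩
  rw [map_pow] at this
  exact this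

def pr (u : List ℕ) : G := (u.map PresentedGroup.of).prod

theorem pr_nil : pr [] = 1 := rfl
theorem pr_cons (k : ℕ) (u : List ℕ) : pr (k :: u) = PresentedGroup.of k * pr u := rfl
theorem pr_append (u v : List ℕ) : pr (u ++ v) = pr u * pr v := by simp [pr]
theorem pr_rep (n k : ℕ) : pr (List.replicate n k) = PresentedGroup.of k ^ n := by simp [pr]

theorem exl (g : G) : ∃ u, pr u = g := by
  let M : Subgroup G :=
    { carrier := {g | ∃ u, pr u = g}
      one_mem' := ⟨[], rfl⟩
      mul_mem' := by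
        rintro _ _ ⟨u, rfl⟩ ⟨v, rfl⟩
        exact ⟨u ++ v, pr_append u v⟩
      inv_mem' := by
        rintro _ ⟨u, rfl⟩
        induction u with
        | nil => exact ⟨[], by simp [pr_nil]⟩
        | cons k u ih =>
          obtain ⟨v, hv⟩ := ih
          refine ⟨v ++ List.replicate (2 ^ (k + 1) - 1) k, ?_⟩
          rw [pr_append, pr_rep, hv, pr_cons, mul_inv_rev]
          congr 1
          rw [eq_inv_iff_mul_eq_one, ← pow_succ, Nat.sub_add_cancel (Nat.one_le_two_pow), of_pow] }
  exact PresentedGroup.generated_by R0 M (fun k => ⟨[k], by simp [pr]⟩) g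

theorem exmin (g : G) : ∃ u, pr u = g ∧
    ∀ i k, ¬ ∀ j < 2 ^ (k + 1), u[i + j]? = some k := by
  classical
  have h : ∃ n, ∃ u, pr u = g ∧ u.length = n := by
    obtain ⟨u, hu⟩ := exl g
    exact ⟨_, u, hu, rfl⟩
  obtain ⟨u, hu, hl⟩ := Nat.find_spec h
  refine ⟨u, hu, fun i k hrun => ?_⟩
  have hpos : 0 < 2 ^ (k + 1) := Nat.pos_of_ne_zero (by positivity)
  have hlen : i + 2 ^ (k + 1) ≤ u.length := by
    have := hrun (2 ^ (k + 1) - 1) (by omega)
    have h2 := (List.getElem?_eq_some_iff.1 this).1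
    omega
  have e : u = u.take i ++ (List.replicate (2 ^ (k + 1)) k ++ u.drop (i + 2 ^ (k + 1))) := by
    have e1 : (u.drop i).take (2 ^ (k + 1)) = List.replicate (2 ^ (k + 1)) k := by
      apply List.ext_getElem?
      intro j
      by_cases hj : j < 2 ^ (k + 1)
      · rw [List.getElem?_take_of_lt hj, List.getElem?_drop, hrun j hj, List.getElem?_replicate,
          if_pos hj]
      · rw [List.getElem?_eq_none (by simp; omega), List.getElem?_eq_none (by simp; omega)]
    rw [← e1, ← List.drop_drop, List.take_append_drop, List.take_append_drop]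
  have hshort : pr (u.take i ++ u.drop (i + 2 ^ (k + 1))) = g := by
    rw [← hu]
    conv_rhs => rw [e]
    rw [pr_append, pr_append, pr_append, pr_rep, of_pow, one_mul]
  have := Nat.find_min' h ⟨_, hshort, rfl⟩
  rw [← hl, List.length_append, List.length_take, List.length_drop] at this
  omega

section Rep
variable (u : List ℕ)

abbrev S : Type := Module.End (ZMod 2) (ℕ → ZMod 2)

def XX (k : ℕ) : S where
  toFun f := fun i => if u[i]? = some k then f (i + 1) else 0
  map_add' f g := by ext i; by_cases h : u[i]? = some k <;> simp [h]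
  map_smul' c f := by ext i; by_cases h : u[i]? = some k <;> simp [h]

theorem XX_apply (k : ℕ) (f : ℕ → ZMod 2) (i : ℕ) :
    XX u k f i = if u[i]? = some k then f (i + 1) else 0 := rfl

theorem XX_pow (k m : ℕ) (f : ℕ → ZMod 2) (i : ℕ) (h : (XX u k ^ m) f i ≠ 0) :
    ∀ j < m, u[i + j]? = some k := by
  induction m generalizing i with
  | zero => intro j hj; omega
  | succ m ih =>
    rw [pow_succ', Module.End.mul_apply, XX_apply] at h
    by_cases h0 : u[i]? = some k
    · rw [if_pos h0] at h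
      intro j hj
      rcases j with _ | j
      · exact h0
      · have := ih (i + 1) h j (by omega)
        rwa [show i + 1 + j = i + (j + 1) by omega] at this
    · rw [if_neg h0] at h; exact absurd rfl h

theorem frob (T : S) (n : ℕ) : (1 + T) ^ 2 ^ n = 1 + T ^ 2 ^ n := by
  induction n with
  | zero => simp
  | succ n ih =>
    rw [pow_succ, pow_mul, ih, pow_mul]
    have : T ^ 2 ^ n + T ^ 2 ^ n = 0 := by
      rw [← two_smul (ZMod 2), show (2 : ZMod 2) = 0 from rfl, zero_smul]
    have e : (1 + T ^ 2 ^ n) ^ 2 = 1 + (T ^ 2 ^ n) ^ 2 + (T ^ 2 ^ n + T ^ 2 ^ n) := by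
      noncomm_ring
    rw [e, this, add_zero]

def II (d n : ℕ) : AddSubgroup S where
  carrier := {T | ∀ f i, (∀ j, i + n ≤ j → j ≤ d → f j = 0) → T f i = 0}
  zero_mem' := fun _ _ _ => rfl
  add_mem' := fun {a b} ha hb f i h => by
    rw [LinearMap.add_apply, Pi.add_apply, ha f i h, hb f i h, add_zero]
  neg_mem' := fun {a} ha f i h => by
    rw [LinearMap.neg_apply, Pi.neg_apply, ha f i h, neg_zero]

theorem II_anti (d n m : ℕ) : ∀ s ∈ II d (n + m), s ∈ II d n :=
  fun _ hs f i h => hs f i fun j h1 h2 => h j (by omega) h2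

theorem II_mul (d n m : ℕ) : ∀ s ∈ II d n, ∀ t ∈ II d m, s * t ∈ II d (n + m) :=
  fun _ hs _ ht f i h => hs _ i fun j h1 _ => ht f j fun l h3 h4 => h l (by omega) h4

theorem XX_mem (k : ℕ) : XX u k ∈ II u.length 1 := fun f i h => by
  rw [XX_apply]
  split_ifs with h0
  · exact h _ le_rfl (List.getElem?_eq_some_iff.1 h0).1
  · rfl

def PP (v : List ℕ) : S := (v.map fun k => 1 + XX u k).prod

theorem PP_drop (m : ℕ) : ∀ s, s + m = u.length →
    PP u (u.drop s) (Pi.single u.length 1) s = 1 ∧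
      ∀ j < s, PP u (u.drop s) (Pi.single u.length 1) j = 0 := by
  induction m with
  | zero =>
    intro s hs
    have : s = u.length := by omega
    subst this
    simp only [List.drop_length, PP, List.map_nil, List.prod_nil, Module.End.one_apply,
      Pi.single_eq_same, true_and]
    intro j hj
    exact Pi.single_eq_of_ne (by omega) _
  | succ m ih =>
    intro s hs
    have hlt : s < u.length := by omega
    obtain ⟨h1, h2⟩ := ih (s + 1) (by omega)
    have e : PP u (u.drop s) = (1 + XX u u[s]) * PP u (u.drop (s + 1)) := by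
      rw [List.drop_eq_getElem_cons hlt]; rfl
    rw [e]
    simp only [Module.End.mul_apply, LinearMap.add_apply, Module.End.one_apply, Pi.add_apply,
      XX_apply]
    refine ⟨?_, fun j hj => ?_⟩
    · rw [h2 s (by omega), if_pos (List.getElem?_eq_getElem hlt), h1, zero_add]
    · rw [h2 j (by omega), h2 (j + 1) (by omega)]; simp

end Rep

theorem rn (g : G) (hg : g ≠ 1) : ∃ n, g ∉ (⊤ : Subgroup G).lowerCentralSeries n := by
  obtain ⟨u, hu, hrun⟩ := exmin g
  have hX : ∀ k, (1 + XX u k) ^ 2 ^ (k + 1) = 1 := fun k => by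
    rw [frob]
    have : XX u k ^ 2 ^ (k + 1) = 0 := by
      refine LinearMap.ext fun f => funext fun i => ?_
      by_contra h
      exact hrun i k (XX_pow u k _ f i h)
    rw [this, add_zero]
  let U : ℕ → Sˣ := fun k => Units.ofPowEqOne _ _ (hX k) (by positivity)
  have hU : ∀ k, (U k : S) = 1 + XX u k := fun k => rfl
  have hrel : ∀ r ∈ R0, FreeGroup.lift U r = 1 := by
    rintro _ ⟨k, rfl⟩
    rw [map_pow, x, FreeGroup.lift_apply_of]
    apply Units.ext
    rw [Units.val_pow_eq_pow_val, hU, hX, Units.val_one]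
  let ρ : G →* Sˣ := PresentedGroup.toGroup hrel
  have hρ : ∀ v, (ρ (pr v) : S) = PP u v := by
    intro v
    induction v with
    | nil => simp [pr_nil, PP]
    | cons k v ih =>
      rw [pr_cons, map_mul, Units.val_mul, ih, PresentedGroup.toGroup.of, hU]; rfl
  have h1 : ∀ g, (ρ g : S) - 1 ∈ II u.length 1 := by
    intro g
    obtain ⟨v, rfl⟩ := exl g
    rw [hρ]
    induction v with
    | nil => simp [PP]
    | cons k v ih =>
      have : PP u (k :: v) - 1 = XX u k * (PP u v - 1) + XX u k + (PP u v - 1) := by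
        rw [show PP u (k :: v) = (1 + XX u k) * PP u v from rfl, mul_sub, mul_one, add_mul, one_mul]
        abel
      rw [this]
      exact (II _ _).add_mem ((II _ _).add_mem
        (II_anti _ 1 1 _ (II_mul _ _ _ _ (XX_mem u k) _ ih)) (XX_mem u k)) ih
  refine ⟨u.length, fun hm => ?_⟩
  have h2 := filt (II u.length) (II_anti _) (II_mul _) ρ h1 _ g hm (Pi.single u.length 1) 0
    (fun j h1 h2 => by omega)
  have hd : u.length ≠ 0 := fun h => hg (by rw [← hu, List.length_eq_zero_iff.1 h, pr_nil])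
  have h3 := (PP_drop u u.length 0 (by omega)).1
  rw [← hu, hρ, LinearMap.sub_apply, Pi.sub_apply, Module.End.one_apply,
    Pi.single_eq_of_ne (Ne.symm hd), sub_zero] at h2
  rw [List.drop_zero, h2] at h3
  exact zero_ne_one h3

theorem central_comm {E : Type} [Group E] (f : E →* G) (hf : Function.Surjective f)
    (hk : f.ker ≤ center E) (g : E) (hg : f g = 1) (hc : g ∈ commutator E) : g = 1 := by
  choose l hl using fun k => hf (PresentedGroup.of k)
  let φ : F →* E := FreeGroup.lift l
  have hφ : ∀ w, f (φ w) = PresentedGroup.mk R0 w := by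
    intro w
    have : f.comp φ = PresentedGroup.mk R0 := FreeGroup.ext_hom _ _ fun k => by
      simp only [MonoidHom.comp_apply, φ, FreeGroup.lift_apply_of, hl]; rfl
    exact DFunLike.congr_fun this w
  have dec : ∀ e : E, ∃ w, ∃ c ∈ center E, e = φ w * c := by
    intro e
    obtain ⟨w, hw⟩ := PresentedGroup.mk_surjective R0 (f e)
    refine ⟨w, (φ w)⁻¹ * e, hk ?_, by group⟩
    rw [MonoidHom.mem_ker, map_mul, map_inv, hφ, hw, inv_mul_cancel]
  have hcomm : commutator E ≤ (commutator F).map φ := by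
    rw [commutator_def, Subgroup.commutator_le]
    intro a _ b _
    obtain ⟨w, c, hc, rfl⟩ := dec a
    obtain ⟨w', c', hc', rfl⟩ := dec b
    refine ⟨⁅w, w'⁆, Subgroup.commutator_mem_commutator (mem_top _) (mem_top _), ?_⟩
    rw [map_commutatorElement, commutatorElement_def, commutatorElement_def]
    have h1 := mem_center_iff.1 hc
    have h2 := mem_center_iff.1 hc'
    calc φ w * φ w' * (φ w)⁻¹ * (φ w')⁻¹
        = φ w * (φ w' * (c' * c) * c⁻¹) * (c'⁻¹ * (φ w)⁻¹) * (φ w')⁻¹ := by group
      _ = φ w * (c * (φ w' * c') * c⁻¹) * ((φ w)⁻¹ * c'⁻¹) * (φ w')⁻¹ := by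
        rw [← h1 (φ w' * c'), ← mul_inv_rev, ← mul_inv_rev, h2 (φ w)]
        group
      _ = _ := by group
  obtain ⟨w, hw, rfl⟩ := hcomm hc
  have hwR : w ∈ normalClosure R0 := by
    rw [← PresentedGroup.mk_eq_one_iff, ← hφ, hg]
  let c : ℕ → center E := fun k => ⟨φ (x k ^ 2 ^ (k + 1)), hk (by
    rw [MonoidHom.mem_ker, hφ]; exact PresentedGroup.one_of_mem ⟨k, rfl⟩)⟩
  let ρ : (ℕ →₀ ℤ) →+ Additive (center E) :=
    Finsupp.liftAddHom fun k => zmultiplesHom _ (Additive.ofMul (c k))
  let e : ℕ → F →* Multiplicative ℤ := fun k =>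
    FreeGroup.lift fun j => Multiplicative.ofAdd (if j = k then 1 else 0)
  let T : Subgroup F :=
    { carrier := {w | ∃ n : ℕ →₀ ℤ, (∀ k, (e k w).toAdd = n k * 2 ^ (k + 1)) ∧
        φ w = ((ρ n).toMul : center E)}
      one_mem' := ⟨0, by simp, by simp⟩
      mul_mem' := by
        rintro a b ⟨n, h1, h2⟩ ⟨m, h3, h4⟩
        refine ⟨n + m, fun k => ?_, ?_⟩
        · rw [map_mul, toAdd_mul, h1, h3, Finsupp.add_apply, add_mul]
        · rw [map_mul, map_add, toMul_add, h2, h4]; rfl
      inv_mem' := by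
        rintro a ⟨n, h1, h2⟩
        refine ⟨-n, fun k => ?_, ?_⟩
        · rw [map_inv, toAdd_inv, h1, Finsupp.neg_apply, neg_mul]
        · rw [map_inv, map_neg, toMul_neg, h2]; rfl }
  have hT : T.Normal := ⟨by
    rintro a ⟨n, h1, h2⟩ b
    refine ⟨n, fun k => ?_, ?_⟩
    · rw [map_mul (e k), map_mul (e k), map_inv (e k), mul_comm (e k b), mul_assoc,
        mul_inv_cancel, mul_one, h1]
    · rw [map_mul, map_mul, map_inv, h2, mem_center_iff.1 ((ρ n).toMul : center E).2, mul_assoc,
        mul_inv_cancel, mul_one]⟩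
  have hsub : R0 ⊆ T := by
    rintro _ ⟨k, rfl⟩
    refine ⟨Finsupp.single k 1, fun j => ?_, ?_⟩
    · rw [map_pow, toAdd_pow, x]
      simp only [e, FreeGroup.lift_apply_of, toAdd_ofAdd, Finsupp.single_apply]
      split_ifs with h
      · subst h; simp
      · simp
    · simp [ρ, c]
  obtain ⟨n, h1, h2⟩ := normalClosure_le_normal hsub hwR
  have hn : n = 0 := by
    ext k
    have h3 : e k w = 1 := by
      have : commutator F ≤ (e k).ker := Abelianization.commutator_subset_ker (e k)
      exact this hw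
    have h4 := h1 k
    rw [h3, toAdd_one] at h4
    exact (mul_eq_zero.1 h4.symm).resolve_right (by positivity)
  rw [h2, hn]
  simp

theorem part1 (E : Type) (hE : Group E) (f : E →* G) (hf : Function.Surjective f)
    (hk : f.ker ≤ center E) (g : E) (hg : g ≠ 1) :
    ∃ (H : Type) (_ : Group H) (φ : E →* H), Group.IsNilpotent H ∧ φ g ≠ 1 := by
  by_cases h : f g = 1
  · refine ⟨Abelianization E, inferInstance, Abelianization.of, inferInstance, fun h0 => hg ?_⟩
    refine central_comm f hf hk g h ?_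
    rw [← Abelianization.ker_of]
    exact h0
  · obtain ⟨n, hn⟩ := rn (f g) h
    refine ⟨G ⧸ (⊤ : Subgroup G).lowerCentralSeries n, inferInstance,
      (QuotientGroup.mk' _).comp f, quot_nil G n, fun h0 => hn ?_⟩
    exact (QuotientGroup.eq_one_iff _).1 h0

theorem cext (r s : Set F) (h1 : ∀ w ∈ r, PresentedGroup.mk s w = 1)
    (h2 : ∀ w ∈ s, ∀ k, Commute (PresentedGroup.of k) (PresentedGroup.mk r w)) :
    ∃ f : PresentedGroup r →* PresentedGroup s, Function.Surjective f ∧ f.ker ≤ center _ := by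
  have e : FreeGroup.lift (fun k => (PresentedGroup.of k : PresentedGroup s))
      = PresentedGroup.mk s := FreeGroup.ext_hom _ _ fun k => FreeGroup.lift_apply_of
  have h : ∀ w ∈ r, FreeGroup.lift (fun k => (PresentedGroup.of k : PresentedGroup s)) w = 1 :=
    fun w hw => by rw [e]; exact h1 w hw
  have hm : ∀ w, PresentedGroup.toGroup h (PresentedGroup.mk r w) = PresentedGroup.mk s w := by
    intro w
    have : (PresentedGroup.toGroup h).comp (PresentedGroup.mk r) = PresentedGroup.mk s :=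
      FreeGroup.ext_hom _ _ fun k => PresentedGroup.toGroup.of h
    exact DFunLike.congr_fun this w
  refine ⟨PresentedGroup.toGroup h, fun g => ?_, fun g hg => ?_⟩
  · obtain ⟨w, rfl⟩ := PresentedGroup.mk_surjective s g
    exact ⟨_, hm w⟩
  · obtain ⟨w, rfl⟩ := PresentedGroup.mk_surjective r g
    rw [MonoidHom.mem_ker, hm, PresentedGroup.mk_eq_one_iff] at hg
    have : s ⊆ (center (PresentedGroup r)).comap (PresentedGroup.mk r) := by
      intro v hv
      show PresentedGroup.mk r v ∈ center _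
      rw [mem_center_iff]
      intro g
      exact PresentedGroup.generated_by r (centralizer {PresentedGroup.mk r v})
        (fun k => mem_centralizer_singleton_iff.2 (h2 v hv k)) g _ rfl |>.symm
    exact normalClosure_le_normal this hg

def a : F := x 1 ^ 2 ^ 2
def z : F := ⁅a, x 0⁆
def R2 : Set F := {w | w = x 0 ^ 2 ∨ (∃ k, w = x (k + 1) ^ 2 ^ (k + 2) * a⁻¹) ∨ ∃ k, w = ⁅x k, z⁆}
def R1 : Set F := {w | w ∈ R2 ∨ w = z}

theorem mk_a (s : Set F) (h : R2 ⊆ s) (k : ℕ) :
    (PresentedGroup.of (k + 1) : PresentedGroup s) ^ 2 ^ (k + 2) = PresentedGroup.mk s a := by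
  have := PresentedGroup.mk_eq_mk_of_mul_inv_mem (rels := s) (h (Or.inr (Or.inl ⟨k, rfl⟩)))
  rw [map_pow] at this
  exact this

theorem ext1 : ∃ f : PresentedGroup R1 →* G, Function.Surjective f ∧ f.ker ≤ center _ := by
  have ha : PresentedGroup.mk R0 a = 1 := PresentedGroup.one_of_mem ⟨1, rfl⟩
  have hz : PresentedGroup.mk R0 z = 1 := by
    rw [z, map_commutatorElement, ha, commutatorElement_one_left]
  refine cext R1 R0 ?_ ?_
  · rintro w ((rfl | ⟨k, rfl⟩ | ⟨k, rfl⟩) | rfl)
    · exact PresentedGroup.one_of_mem ⟨0, rfl⟩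
    · rw [map_mul, map_inv, ha, inv_one, mul_one]; exact PresentedGroup.one_of_mem ⟨k + 1, rfl⟩
    · rw [map_commutatorElement, hz, commutatorElement_one_right]
    · exact hz
  · rintro _ ⟨k, rfl⟩ j
    rcases k with _ | k
    · have : PresentedGroup.mk R1 (x 0 ^ 2 ^ (0 + 1)) = 1 :=
        PresentedGroup.one_of_mem (Or.inl (Or.inl rfl))
      rw [this]; exact Commute.one_right _
    · rw [map_pow]
      change Commute _ ((PresentedGroup.of (k + 1) : PresentedGroup R1) ^ 2 ^ (k + 2))
      rw [mk_a R1 (fun _ h => Or.inl h)]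
      rcases j with _ | j
      · have : PresentedGroup.mk R1 z = 1 := PresentedGroup.one_of_mem (Or.inr rfl)
        rw [z, map_commutatorElement, commutatorElement_eq_one_iff_commute] at this
        exact this.symm
      · rw [← mk_a R1 (fun _ h => Or.inl h) j]
        exact (Commute.refl _).pow_right _

theorem ext2 : ∃ f : PresentedGroup R2 →* PresentedGroup R1,
    Function.Surjective f ∧ f.ker ≤ center _ := by
  refine cext R2 R1 (fun w hw => PresentedGroup.one_of_mem (Or.inl hw)) ?_
  rintro w (hw | rfl) k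
  · rw [PresentedGroup.one_of_mem hw]; exact Commute.one_right _
  · have : PresentedGroup.mk R2 ⁅x k, z⁆ = 1 := PresentedGroup.one_of_mem (Or.inr (Or.inr ⟨k, rfl⟩))
    rw [map_commutatorElement, commutatorElement_eq_one_iff_commute] at this
    exact this

theorem deep {H : Type} [Group H] (t y : H) (hy : y * y = 1) (n : ℕ) :
    ⁅t ^ 2 ^ n, y⁆ ∈ (⊤ : Subgroup H).lowerCentralSeries n := by
  induction n with
  | zero => exact mem_top _
  | succ n ih =>
    have hi : y⁻¹ = y := inv_eq_of_mul_eq_one_right hy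
    have e : ⁅t ^ 2 ^ (n + 1), y⁆ = ⁅⁅t ^ 2 ^ n, y⁆, t ^ 2 ^ n⁆⁻¹ * ⁅⁅t ^ 2 ^ n, y⁆, y⁆ := by
      rw [pow_succ, pow_mul]
      generalize t ^ 2 ^ n = s
      have h : y * ⁅s, y⁆⁻¹ * y⁻¹ = ⁅s, y⁆ := by
        rw [commutatorElement_def]
        calc y * (s * y * s⁻¹ * y⁻¹)⁻¹ * y⁻¹ = (y * y) * s * y⁻¹ * s⁻¹ * y⁻¹ := by group
          _ = _ := by rw [hy, one_mul]; nth_rewrite 1 [hi]; rfl
      have h2 : ⁅s ^ 2, y⁆ = s * ⁅s, y⁆ * s⁻¹ * ⁅s, y⁆ := by
        simp only [commutatorElement_def, sq]; group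
      rw [h2]
      generalize ⁅s, y⁆ = c at h ⊢
      nth_rewrite 2 [← h]
      simp only [commutatorElement_def]; group
    rw [e, Subgroup.lowerCentralSeries_succ]
    exact mul_mem (inv_mem (Subgroup.commutator_mem_commutator ih (mem_top _)))
      (Subgroup.commutator_mem_commutator ih (mem_top _))

theorem z_dies (H : Type) (hH : Group H) (φ : PresentedGroup R2 →* H) (h : Group.IsNilpotent H) :
    φ (PresentedGroup.mk R2 z) = 1 := by
  obtain ⟨n, hn⟩ := Subgroup.nilpotent_iff_lowerCentralSeries.1 h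
  have hy : φ (PresentedGroup.of 0) * φ (PresentedGroup.of 0) = 1 := by
    have : PresentedGroup.mk R2 (x 0 ^ 2) = 1 := PresentedGroup.one_of_mem (Or.inl rfl)
    rw [map_pow] at this
    rw [← sq, ← map_pow]
    change φ (PresentedGroup.mk R2 (x 0) ^ 2) = 1
    rw [this, map_one]
  have h1 := deep (φ (PresentedGroup.of (n + 1))) _ hy (n + 2)
  have h2 := Subgroup.lowerCentralSeries_antitone (⊤ : Subgroup H) (by omega : n ≤ n + 2) h1
  rw [hn, mem_bot, ← map_pow, mk_a R2 (fun _ h => h)] at h2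
  rw [z, map_commutatorElement, map_commutatorElement]
  exact h2

abbrev Ω : Type := ℚ × ZMod 2

def tr (q : ℚ) (e : ZMod 2) : Equiv.Perm Ω := Equiv.addRight (q, e)

theorem tr_apply (q : ℚ) (e : ZMod 2) (w : Ω) : tr q e w = (w.1 + q, w.2 + e) := rfl

theorem tr_pow (q : ℚ) (n : ℕ) : tr q 0 ^ n = tr (n * q) 0 := by
  induction n with
  | zero => ext w <;> simp [tr_apply]
  | succ n ih =>
    rw [pow_succ, ih]
    ext w
    · simp only [Equiv.Perm.mul_apply, tr_apply]; push_cast; ring
    · simp [tr_apply]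

theorem two (e : ZMod 2) : e + e = 0 := by
  rw [← two_mul, show (2 : ZMod 2) = 0 from rfl, zero_mul]

def yy : Equiv.Perm Ω := Function.Involutive.toPerm (fun w => (w.1, w.2 + (⌊w.1⌋ : ZMod 2)))
  (fun w => by
    ext
    · rfl
    · simp only; rw [add_assoc, two, add_zero])

theorem yy_apply (w : Ω) : yy w = (w.1, w.2 + (⌊w.1⌋ : ZMod 2)) := rfl

def img : ℕ → Equiv.Perm Ω
  | 0 => yy
  | k + 1 => tr (1 / 2 ^ (k + 2)) 0

theorem img_pow (k : ℕ) : img (k + 1) ^ 2 ^ (k + 2) = tr 1 0 := by
  rw [img, tr_pow]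
  congr 1
  push_cast
  field_simp

theorem lift_a : FreeGroup.lift img a = tr 1 0 := by
  rw [a, map_pow, x, FreeGroup.lift_apply_of]
  exact img_pow 0

theorem lift_z : FreeGroup.lift img z = tr 0 1 := by
  rw [z, map_commutatorElement, lift_a, x, FreeGroup.lift_apply_of, commutatorElement_def,
    mul_inv_eq_iff_eq_mul, mul_inv_eq_iff_eq_mul]
  ext w
  · simp [img, tr_apply, yy_apply]
  · simp only [img, Equiv.Perm.mul_apply, tr_apply, yy_apply, Int.floor_add_one]
    push_cast
    have := two 1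
    linear_combination -this

theorem z_ne : PresentedGroup.mk R2 z ≠ 1 := by
  have h : ∀ r ∈ R2, FreeGroup.lift img r = 1 := by
    rintro w (rfl | ⟨k, rfl⟩ | ⟨k, rfl⟩)
    · rw [map_pow, x, FreeGroup.lift_apply_of]
      ext w
      · simp [sq, img, yy_apply]
      · simp only [sq, img, Equiv.Perm.mul_apply, yy_apply, Equiv.Perm.one_apply]
        rw [add_assoc, two, add_zero]
    · rw [map_mul, map_inv, lift_a, map_pow, x, FreeGroup.lift_apply_of, img_pow, mul_inv_cancel]
    · rw [map_commutatorElement, lift_z, x, FreeGroup.lift_apply_of,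
        commutatorElement_eq_one_iff_mul_comm]
      rcases k with _ | k
      · ext w
        · simp [img, tr_apply, yy_apply]
        · simp only [img, Equiv.Perm.mul_apply, tr_apply, yy_apply, add_zero]; ring
      · ext w
        · simp [img, tr_apply]
        · simp [img, tr_apply]
  intro h0
  have := PresentedGroup.to_group_eq_one_of_mem_closure h _ (PresentedGroup.mk_eq_one_iff.1 h0)
  rw [lift_z] at this
  have h2 := congrArg (fun p : Equiv.Perm Ω => (p (0, 0)).2) this
  simp [tr_apply] at h2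

end Pool.Agent.H.MP_c9c98b_al
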